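import Mathlib

/-! # Project EV, CORE (c): expansion of `P (r e^{ix}) / P r` from the roots (helper82) -/

set_option autoImplicit false

namespace Pool.Agent.Helper82.EV

open Polynomial Complex

/-- One factor. -/
theorem factor (B : ℝ) (hB : 0 ≤ B) (p : ℂ) (hp : ‖p‖ ≤ B) (x : ℝ) (hx : |x| ≤ 1 / (2 * (B + 1))) :
    ∃ E : ℂ, ‖E‖ ≤ (B + 1) ^ 2 * ‖p‖ * |x| ^ 3 ∧
      1 + (exp (x * I) - 1) * p = exp (x * I * p - p * (1 - p) * x ^ 2 / 2 + E) := by
  have hB1 : 0 < B + 1 := by linarith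
  have hx1 : |x| ≤ 1 := hx.trans (by rw [div_le_one (by positivity)]; linarith)
  have hxB : |x| * B ≤ 1 / 2 := by
    have h1 : |x| * (2 * (B + 1)) ≤ 1 := by
      rwa [le_div_iff₀ (by positivity)] at hx
    nlinarith [abs_nonneg x]
  have hnx : ‖(x : ℂ) * I‖ = |x| := by simp
  set w : ℂ := exp (x * I) - 1 with hw
  -- bounds on `w`
  have hw1 : ‖w‖ ≤ |x| := by
    have := Real.norm_exp_I_mul_ofReal_sub_one_le (x := x)
    rw [hw, mul_comm (x : ℂ) I]
    simpa using this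
  have hw2 : ‖w - x * I‖ ≤ |x| ^ 2 := by
    have := norm_exp_sub_one_sub_id_le (x := (x : ℂ) * I) (by rw [hnx]; exact hx1)
    rwa [hnx] at this
  have hw3 : ‖w - x * I + x ^ 2 / 2‖ ≤ |x| ^ 3 := by
    have := exp_bound (x := (x : ℂ) * I) (by rw [hnx]; exact hx1) (n := 3) (by norm_num)
    rw [hnx] at this
    have h2 : w - x * I + x ^ 2 / 2 = exp (x * I) - ∑ m ∈ Finset.range 3, ((x : ℂ) * I) ^ m / (m.factorial : ℂ) := by
      rw [hw]
      simp [Finset.sum_range_succ, Nat.factorial]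
      have : (x * I : ℂ) ^ 2 = - x ^ 2 := by rw [mul_pow, I_sq]; ring
      rw [this]; ring
    rw [h2]
    refine this.trans ?_
    have h3 : ((3 : ℕ).succ : ℝ) * (((3 : ℕ).factorial : ℝ) * ((3 : ℕ) : ℝ))⁻¹ ≤ 1 := by
      norm_num [Nat.factorial]
    calc |x| ^ 3 * (((3 : ℕ).succ : ℝ) * (((3 : ℕ).factorial : ℝ) * ((3 : ℕ) : ℝ))⁻¹)
        ≤ |x| ^ 3 * 1 := mul_le_mul_of_nonneg_left h3 (by positivity)
      _ = |x| ^ 3 := mul_one _
  set u : ℂ := w * p with hu
  have hu1 : ‖u‖ ≤ |x| * ‖p‖ := by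
    rw [hu, norm_mul]
    exact mul_le_mul_of_nonneg_right hw1 (norm_nonneg _)
  have hu2 : ‖u‖ ≤ 1 / 2 := hu1.trans ((mul_le_mul_of_nonneg_left hp (abs_nonneg _)).trans hxB)
  have hne : 1 + u ≠ 0 := by
    intro h
    have : u = -1 := by linear_combination h
    rw [this] at hu2
    norm_num at hu2
  have hlog := norm_log_sub_logTaylor_le 2 (z := u) (by linarith)
  have hT : logTaylor (2 + 1) u = u - u ^ 2 / 2 := by
    simp [logTaylor, Finset.sum_range_succ]
    ring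
  rw [hT] at hlog
  refine ⟨log (1 + u) - x * I * p + p * (1 - p) * x ^ 2 / 2, ?_, ?_⟩
  · have hdec : log (1 + u) - x * I * p + p * (1 - p) * x ^ 2 / 2
        = (log (1 + u) - (u - u ^ 2 / 2)) + p * (w - x * I + x ^ 2 / 2)
          - p ^ 2 / 2 * ((w - x * I) * (w + x * I)) := by
      rw [hu]
      have hI : (I : ℂ) ^ 2 = -1 := I_sq
      linear_combination (-(p ^ 2 * x ^ 2 / 2)) * hI
    rw [hdec]
    have hP := norm_nonneg p
    have ha := abs_nonneg x
    have e1 : ‖log (1 + u) - (u - u ^ 2 / 2)‖ ≤ (B ^ 2) * ‖p‖ * |x| ^ 3 := by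
      refine hlog.trans ?_
      have h1 : (1 - ‖u‖)⁻¹ ≤ 2 := by
        rw [inv_le_comm₀ (by linarith) (by norm_num)]
        linarith
      have h2 : ‖u‖ ^ 3 ≤ (|x| * ‖p‖) ^ 3 := pow_le_pow_left₀ (norm_nonneg _) hu1 3
      have h3 : ‖p‖ ^ 2 ≤ B ^ 2 := pow_le_pow_left₀ hP hp 2
      calc ‖u‖ ^ (2 + 1) * (1 - ‖u‖)⁻¹ / ((2 : ℕ) + 1)
          ≤ (|x| * ‖p‖) ^ 3 * 2 / ((2 : ℕ) + 1) := by
            gcongr
            · exact inv_nonneg.2 (by linarith)
        _ ≤ (|x| * ‖p‖) ^ 3 := by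
            have : 0 ≤ (|x| * ‖p‖) ^ 3 := by positivity
            push_cast
            linarith
        _ = ‖p‖ ^ 2 * (‖p‖ * |x| ^ 3) := by ring
        _ ≤ B ^ 2 * (‖p‖ * |x| ^ 3) := mul_le_mul_of_nonneg_right h3 (by positivity)
        _ = _ := by ring
    have e2 : ‖p * (w - x * I + x ^ 2 / 2)‖ ≤ ‖p‖ * |x| ^ 3 := by
      rw [norm_mul]
      exact mul_le_mul_of_nonneg_left hw3 hP
    have e3 : ‖p ^ 2 / 2 * ((w - x * I) * (w + x * I))‖ ≤ B * ‖p‖ * |x| ^ 3 := by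
      rw [norm_mul, norm_mul, norm_div, norm_pow]
      have h1 : ‖w + x * I‖ ≤ 2 * |x| := by
        refine (norm_add_le _ _).trans ?_
        rw [hnx]; linarith
      have h2 : ‖(2 : ℂ)‖ = 2 := by norm_num
      rw [h2]
      calc ‖p‖ ^ 2 / 2 * (‖w - x * I‖ * ‖w + x * I‖)
          ≤ ‖p‖ ^ 2 / 2 * (|x| ^ 2 * (2 * |x|)) := by gcongr
        _ = ‖p‖ * (‖p‖ * |x| ^ 3) := by ring
        _ ≤ B * (‖p‖ * |x| ^ 3) := mul_le_mul_of_nonneg_right hp (by positivity)
        _ = _ := by ring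
    calc ‖(log (1 + u) - (u - u ^ 2 / 2)) + p * (w - x * I + x ^ 2 / 2)
          - p ^ 2 / 2 * ((w - x * I) * (w + x * I))‖
        ≤ ‖log (1 + u) - (u - u ^ 2 / 2)‖ + ‖p * (w - x * I + x ^ 2 / 2)‖
          + ‖p ^ 2 / 2 * ((w - x * I) * (w + x * I))‖ :=
          (norm_sub_le _ _).trans (add_le_add_left (norm_add_le _ _) _)
      _ ≤ B ^ 2 * ‖p‖ * |x| ^ 3 + ‖p‖ * |x| ^ 3 + B * ‖p‖ * |x| ^ 3 := by linarith
      _ ≤ (B + 1) ^ 2 * ‖p‖ * |x| ^ 3 := by
          have : 0 ≤ B * (‖p‖ * |x| ^ 3) := by positivity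
          nlinarith
  · rw [show x * I * p - p * (1 - p) * x ^ 2 / 2 + (log (1 + u) - x * I * p
        + p * (1 - p) * x ^ 2 / 2) = log (1 + u) by ring, exp_log hne]

/-- Product over a multiset. -/
theorem product (B : ℝ) (hB : 0 ≤ B) (m : Multiset ℂ) (hm : ∀ p ∈ m, ‖p‖ ≤ B) (x : ℝ)
    (hx : |x| ≤ 1 / (2 * (B + 1))) :
    ∃ E : ℂ, ‖E‖ ≤ (B + 1) ^ 2 * (m.map (fun p => ‖p‖)).sum * |x| ^ 3 ∧
      (m.map (fun p => 1 + (exp (x * I) - 1) * p)).prod
        = exp (x * I * m.sum - (m.map (fun p => p * (1 - p))).sum * x ^ 2 / 2 + E) := by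
  induction m using Multiset.induction_on with
  | empty => exact ⟨0, by simp, by simp⟩
  | cons p m ih =>
    obtain ⟨E, hE, h1⟩ := ih (fun q hq => hm q (Multiset.mem_cons_of_mem hq))
    obtain ⟨F, hF, h2⟩ := factor B hB p (hm p (Multiset.mem_cons_self _ _)) x hx
    refine ⟨F + E, ?_, ?_⟩
    · rw [Multiset.map_cons, Multiset.sum_cons]
      refine (norm_add_le _ _).trans ?_
      linarith
    · rw [Multiset.map_cons, Multiset.prod_cons, h1, h2, ← exp_add, Multiset.map_cons,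
        Multiset.sum_cons, Multiset.sum_cons]
      congr 1
      ring

/-- Complex roots of a real polynomial. -/
noncomputable def zz (P : ℝ[X]) : Multiset ℂ := (P.map (algebraMap ℝ ℂ)).roots

/-- The probability attached to a root. -/
noncomputable def pr (r : ℝ) (z : ℂ) : ℂ := (r : ℂ) / ((r : ℂ) - z)

/-- `r P'(r) / P(r)`. -/
noncomputable def mean (P : ℝ[X]) (r : ℝ) : ℝ := r * P.derivative.eval r / P.eval r

/-- The variance. -/
noncomputable def var (P : ℝ[X]) (r : ℝ) : ℝ :=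
  ((zz P).map (fun z => pr r z * (1 - pr r z))).sum.re

/-- The size of the third order term. -/
noncomputable def size (P : ℝ[X]) (r : ℝ) : ℝ := ((zz P).map (fun z => ‖pr r z‖)).sum

theorem eval_map_real (P : ℝ[X]) (r : ℝ) :
    (P.map (algebraMap ℝ ℂ)).eval (r : ℂ) = ((P.eval r : ℝ) : ℂ) := by
  have := Polynomial.eval_map_algebraMap (B := ℂ) P (r : ℂ)
  rw [this]
  have h := Polynomial.aeval_algebraMap_apply ℂ r P
  simpa using h

theorem conj_roots (P : ℝ[X]) : (zz P).map (starRingEnd ℂ) = zz P := by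
  unfold zz
  have h := (IsAlgClosed.splits (P.map (algebraMap ℝ ℂ))).roots_map (starRingEnd ℂ)
  rw [← h, Polynomial.map_map]
  congr 2
  ext r; simp

theorem sum_eq_mean (P : ℝ[X]) (r : ℝ) (hP : P.eval r ≠ 0) :
    ((zz P).map (pr r)).sum = (mean P r : ℂ) := by
  have hs := IsAlgClosed.splits (P.map (algebraMap ℝ ℂ))
  have hne : (P.map (algebraMap ℝ ℂ)).eval (r : ℂ) ≠ 0 := by
    rw [eval_map_real]; exact_mod_cast hP
  have h := hs.eval_derivative_div_eval_of_ne_zero hne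
  have h2 : ((zz P).map (pr r)).sum
      = (r : ℂ) * ((P.map (algebraMap ℝ ℂ)).roots.map fun z => 1 / ((r : ℂ) - z)).sum := by
    rw [← Multiset.sum_map_mul_left]
    unfold zz
    congr 1
    apply Multiset.map_congr rfl
    intro z _
    unfold pr
    ring
  rw [h2, ← h, derivative_map, eval_map_real, eval_map_real]
  unfold mean
  push_cast
  ring

theorem var_real (P : ℝ[X]) (r : ℝ) :
    ((zz P).map (fun z => pr r z * (1 - pr r z))).sum = (var P r : ℂ) := by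
  have h1 : (starRingEnd ℂ) ((zz P).map (fun z => pr r z * (1 - pr r z))).sum
      = ((zz P).map (fun z => pr r z * (1 - pr r z))).sum := by
    rw [map_multiset_sum, Multiset.map_map]
    nth_rw 2 [← conj_roots P]
    rw [Multiset.map_map]
    congr 1
    apply Multiset.map_congr rfl
    intro z _
    simp [pr]
  have h2 := Complex.conj_eq_iff_re.1 h1
  unfold var
  exact h2.symm

/-- **Expansion.** -/
theorem expansion (B : ℝ) (hB : 0 ≤ B) (P : ℝ[X]) (r : ℝ) (hP : P.eval r ≠ 0)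
    (hb : ∀ z ∈ zz P, ‖pr r z‖ ≤ B) (x : ℝ) (hx : |x| ≤ 1 / (2 * (B + 1))) :
    ∃ E : ℂ, ‖E‖ ≤ (B + 1) ^ 2 * size P r * |x| ^ 3 ∧
      (P.map (algebraMap ℝ ℂ)).eval ((r : ℂ) * exp (x * I))
        = ((P.eval r : ℝ) : ℂ) * exp (x * I * mean P r - var P r * x ^ 2 / 2 + E) := by
  have hs := IsAlgClosed.splits (P.map (algebraMap ℝ ℂ))
  obtain ⟨E, hE, h1⟩ := product B hB ((zz P).map (pr r))
    (by intro p hp; obtain ⟨z, hz, rfl⟩ := Multiset.mem_map.1 hp; exact hb z hz) x hx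
  refine ⟨E, ?_, ?_⟩
  · rw [Multiset.map_map] at hE
    exact hE
  · rw [sum_eq_mean P r hP, Multiset.map_map, Multiset.map_map] at h1
    have hv : ((zz P).map ((fun p => p * (1 - p)) ∘ pr r)).sum = (var P r : ℂ) := var_real P r
    rw [hv] at h1
    rw [← h1, ← eval_map_real]
    rw [hs.eval_eq_prod_roots, hs.eval_eq_prod_roots, mul_assoc]
    change _ * (Multiset.map _ (zz P)).prod = _ * ((Multiset.map _ (zz P)).prod * _)
    rw [← Multiset.prod_map_mul]
    congr 2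
    apply Multiset.map_congr rfl
    intro z hz
    have hne : (r : ℂ) - z ≠ 0 := by
      intro h
      have hz' : (r : ℂ) = z := by linear_combination h
      have := (mem_roots'.1 hz).2
      rw [IsRoot.def, ← hz', eval_map_real] at this
      exact hP (by exact_mod_cast this)
    simp only [Function.comp, pr]
    field_simp
    ring

end Pool.Agent.Helper82.EV
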