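import Mathlib
import Pool.Agent.Helper48.EV.Near

/-! # Project EV, CORE (c), (d): the map `φ ↦ 4 sinh² φ` on a sector (helper82) -/

set_option autoImplicit false

namespace Pool.Agent.Helper82.EV

open Polynomial Complex
open Pool.Agent.Helper48.EV (sqrt_sq sqrt_re_nonneg norm_sqrt norm_sqrt_one_add_sub_one)

/-- Explicit `arsinh` on a sector: real part from `cosh 2x = |w|² + |1 + w²|`. -/
theorem exists_arsinh (w : ℂ) (T : ℝ) (hT : 0 ≤ T) (ha : 0 < w.re) (hb : |w.im| ≤ T * w.re)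
    (hb1 : |w.im| ≤ 1) :
    ∃ φ : ℂ, sinh φ = w ∧ 0 < φ.re ∧ |φ.im| ≤ T ∧
      Real.cosh (2 * φ.re) = ‖w‖ ^ 2 + ‖1 + w ^ 2‖ := by
  set a := w.re with hadef
  set b := w.im with hbdef
  set s : ℂ := (1 + w ^ 2) ^ ((1 : ℂ) / 2) with hs
  have hs2 : s ^ 2 = 1 + w ^ 2 := sqrt_sq _
  have hp0 : 0 ≤ s.re := sqrt_re_nonneg _
  set p := s.re with hpdef
  set q := s.im with hqdef
  have hw : w = a + b * I := (re_add_im w).symm
  have hsv : s = p + q * I := (re_add_im s).symm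
  have hre : p ^ 2 - q ^ 2 = 1 + a ^ 2 - b ^ 2 := by
    have := congrArg Complex.re hs2
    simp only [pow_two, mul_re, add_re, one_re] at this
    simp only [pow_two]
    linarith
  have him : p * q = a * b := by
    have := congrArg Complex.im hs2
    simp only [pow_two, mul_im, add_im, one_im] at this
    linarith
  have hb2 : b ^ 2 ≤ 1 := by
    rw [← sq_abs]; nlinarith [abs_nonneg b]
  have hpa : a ^ 2 ≤ p ^ 2 := by nlinarith [sq_nonneg q]
  have hpa' : a ≤ p := by nlinarith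
  have hp : 0 < p := lt_of_lt_of_le ha hpa'
  have hbq : 0 ≤ b * q := by
    have h1 : b * q * p = a * b ^ 2 := by
      calc b * q * p = b * (p * q) := by ring
        _ = a * b ^ 2 := by rw [him]; ring
    have h2 : 0 ≤ b * q * p := by rw [h1]; positivity
    exact nonneg_of_mul_nonneg_left h2 hp
  have hq : |q| ≤ T * p := by
    have h1 : |q| * p = a * |b| := by
      rw [show |q| * p = |p * q| by rw [abs_mul, abs_of_pos hp, mul_comm], him, abs_mul, abs_of_pos ha]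
    have h2 : |q| * p ≤ T * p * p := by
      rw [h1]
      calc a * |b| ≤ a * (T * a) := mul_le_mul_of_nonneg_left hb ha.le
        _ = T * a ^ 2 := by ring
        _ ≤ T * p ^ 2 := mul_le_mul_of_nonneg_left hpa hT
        _ = T * p * p := by ring
    exact le_of_mul_le_mul_right h2 hp
  set v : ℂ := w + s with hv
  have hvre : v.re = a + p := rfl
  have hvim : v.im = b + q := rfl
  have hvpos : 0 < v.re := by rw [hvre]; linarith
  have hv0 : v ≠ 0 := by
    intro h; rw [h] at hvpos; simp at hvpos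
  have hinv : v * (s - w) = 1 := by
    rw [hv]; linear_combination hs2
  have hvi : v⁻¹ = s - w := inv_eq_of_mul_eq_one_right hinv
  have hnv : 0 < ‖v‖ := norm_pos_iff.2 hv0
  have n1 : ‖v‖ ^ 2 = (a + p) ^ 2 + (b + q) ^ 2 := by
    rw [← normSq_eq_norm_sq, normSq_apply, hvre, hvim]; ring
  have n2 : ‖v‖⁻¹ ^ 2 = (p - a) ^ 2 + (q - b) ^ 2 := by
    rw [← norm_inv, hvi, ← normSq_eq_norm_sq, normSq_apply]
    simp only [sub_re, sub_im]
    ring
  have hv1 : 1 < ‖v‖ := by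
    by_contra hcon
    push Not at hcon
    have h1 : ‖v‖ ^ 2 ≤ 1 := by nlinarith
    have h2 : 1 ≤ ‖v‖⁻¹ ^ 2 := by
      have : 1 ≤ ‖v‖⁻¹ := (one_le_inv₀ hnv).2 hcon
      nlinarith
    nlinarith [mul_pos ha hp]
  refine ⟨log v, ?_, ?_, ?_, ?_⟩
  · rw [sinh, exp_neg, exp_log hv0, hvi, hv]; ring
  · rw [log_re]; exact Real.log_pos hv1
  · rw [log_im]
    have h1 : |v.arg| < Real.pi / 2 := abs_arg_lt_pi_div_two_iff.2 (Or.inl hvpos)
    have h2 : Real.tan v.arg = v.im / v.re := tan_arg v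
    have h3 : |v.arg| ≤ |Real.tan v.arg| := by
      rcases le_total 0 v.arg with h | h
      · rw [abs_of_nonneg h] at h1 ⊢
        exact (Real.le_tan h h1).trans (le_abs_self _)
      · rw [abs_of_nonpos h] at h1 ⊢
        have := Real.le_tan (neg_nonneg.2 h) h1
        rw [Real.tan_neg] at this
        exact this.trans (neg_le_abs _)
    refine h3.trans ?_
    rw [h2, abs_div, abs_of_pos hvpos, div_le_iff₀ hvpos, hvre, hvim]
    calc |b + q| ≤ |b| + |q| := abs_add_le _ _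
      _ ≤ T * a + T * p := add_le_add hb hq
      _ = T * (a + p) := by ring
  · rw [log_re, Real.cosh_eq]
    have e1 : Real.exp (2 * Real.log ‖v‖) = ‖v‖ ^ 2 := by
      rw [mul_comm, Real.exp_mul, Real.exp_log hnv]; norm_num
    have e2 : Real.exp (-(2 * Real.log ‖v‖)) = ‖v‖⁻¹ ^ 2 := by
      rw [Real.exp_neg, e1, inv_pow]
    rw [e1, e2, n1, n2]
    have e3 : ‖w‖ ^ 2 = a ^ 2 + b ^ 2 := by
      rw [← normSq_eq_norm_sq, normSq_apply]; ring
    have e4 : ‖1 + w ^ 2‖ = p ^ 2 + q ^ 2 := by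
      rw [← hs2, norm_pow, ← normSq_eq_norm_sq, normSq_apply]; ring
    rw [e3, e4]; ring

/-- Real part bounded by `Φ` if `|w| ≤ sinh Φ`. -/
theorem re_le_of (w φ : ℂ) (Phi : ℝ) (hPhi : 0 < Phi) (hre : 0 < φ.re)
    (hcosh : Real.cosh (2 * φ.re) = ‖w‖ ^ 2 + ‖1 + w ^ 2‖) (hw : ‖w‖ ≤ Real.sinh Phi) :
    φ.re ≤ Phi := by
  have h1 : ‖1 + w ^ 2‖ ≤ 1 + ‖w‖ ^ 2 := by
    refine (norm_add_le _ _).trans ?_
    rw [norm_one, norm_pow]
  have h2 : Real.cosh (2 * φ.re) ≤ Real.cosh (2 * Phi) := by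
    rw [hcosh, Real.cosh_two_mul Phi, Real.cosh_sq]
    have : ‖w‖ ^ 2 ≤ Real.sinh Phi ^ 2 := pow_le_pow_left₀ (norm_nonneg _) hw 2
    linarith
  rw [Real.cosh_le_cosh, abs_of_pos (by linarith), abs_of_pos (by linarith)] at h2
  linarith

/-- Zeros near a positive number are excluded. -/
theorem exists_phi_near (z : ℂ) (r δ Phi : ℝ) (hr : 0 < r) (hδ : 0 < δ) (hδ4 : δ ≤ 1 / 4)
    (hPhi : 0 < Phi) (hrP : r ≤ 2 * Real.sinh Phi ^ 2) (hδr : δ * Real.sinh Phi ≤ 1 / 2)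
    (hz : ‖z - r‖ ≤ δ * r) :
    ∃ φ : ℂ, 4 * sinh φ ^ 2 = z ∧ 0 < φ.re ∧ φ.re ≤ Phi ∧ |φ.im| ≤ 2 * δ := by
  have hsh : 0 < Real.sinh Phi := Real.sinh_pos_iff.2 hPhi
  set η : ℂ := (1 + (z - r) / r) ^ ((1 : ℂ) / 2) - 1 with hη
  have hη1 : ‖η‖ ≤ δ := by
    refine (norm_sqrt_one_add_sub_one _).trans ?_
    rw [norm_div, norm_real, Real.norm_eq_abs, abs_of_pos hr, div_le_iff₀ hr]
    exact hz
  have hη2 : (1 + η) ^ 2 = z / r := by
    have := sqrt_sq (1 + (z - r) / r)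
    have hrc : (r : ℂ) ≠ 0 := by exact_mod_cast hr.ne'
    rw [hη, show (1 : ℂ) + ((1 + (z - r) / r) ^ ((1 : ℂ) / 2) - 1)
      = (1 + (z - r) / r) ^ ((1 : ℂ) / 2) by ring, this]
    field_simp
    ring
  have hw0 : 0 < Real.sqrt r / 2 := by positivity
  set w0 : ℝ := Real.sqrt r / 2 with hw0d
  set w : ℂ := w0 * (1 + η) with hw
  have hre : w.re = w0 * (1 + η.re) := by rw [hw, re_ofReal_mul]; simp
  have him : w.im = w0 * η.im := by rw [hw, im_ofReal_mul]; simp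
  have h1 : |η.re| ≤ δ := (abs_re_le_norm η).trans hη1
  have h2 : |η.im| ≤ δ := (abs_im_le_norm η).trans hη1
  have h1' := abs_le.1 h1
  have hsq : Real.sqrt r ≤ 2 * Real.sinh Phi := by
    rw [show (2 * Real.sinh Phi) = Real.sqrt ((2 * Real.sinh Phi) ^ 2) from
      (Real.sqrt_sq (by positivity)).symm]
    apply Real.sqrt_le_sqrt
    nlinarith [sq_nonneg (Real.sinh Phi)]
  have hw0s : w0 ≤ Real.sinh Phi := by rw [hw0d]; linarith
  have hsq2 : w0 ^ 2 ≤ Real.sinh Phi ^ 2 / 2 := by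
    rw [hw0d, div_pow, Real.sq_sqrt hr.le]; linarith
  obtain ⟨φ, hs, hp, hi, hcosh⟩ := exists_arsinh w (2 * δ) (by positivity)
    (by rw [hre]; apply mul_pos hw0; linarith)
    (by
      rw [him, hre, abs_mul, abs_of_pos hw0]
      calc w0 * |η.im| ≤ w0 * δ := mul_le_mul_of_nonneg_left h2 hw0.le
        _ ≤ 2 * δ * (w0 * (1 + η.re)) := by nlinarith [mul_pos hw0 hδ])
    (by
      rw [him, abs_mul, abs_of_pos hw0]
      calc w0 * |η.im| ≤ Real.sinh Phi * δ := by gcongr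
        _ ≤ 1 := by linarith)
  refine ⟨φ, ?_, hp, ?_, hi⟩
  · rw [hs, hw, mul_pow, hη2, hw0d]
    have hrc : (r : ℂ) ≠ 0 := by exact_mod_cast hr.ne'
    have : (((Real.sqrt r / 2 : ℝ) : ℂ)) ^ 2 = (r : ℂ) / 4 := by
      rw [← ofReal_pow, div_pow, Real.sq_sqrt hr.le]; push_cast; ring
    rw [this]; field_simp
  · apply re_le_of w φ Phi hPhi hp hcosh
    rw [hw, norm_mul, norm_real, Real.norm_eq_abs, abs_of_pos hw0]
    have h3 : ‖1 + η‖ ≤ 1 + δ := (norm_add_le _ _).trans (by rw [norm_one]; linarith)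
    have h4 : (w0 * ‖1 + η‖) ^ 2 ≤ Real.sinh Phi ^ 2 := by
      rw [mul_pow]
      have h5 : ‖1 + η‖ ^ 2 ≤ 2 := by
        have := norm_nonneg (1 + η)
        nlinarith
      nlinarith [sq_nonneg w0, sq_nonneg (Real.sinh Phi)]
    exact (abs_le_of_sq_le_sq' h4 hsh.le).2

end Pool.Agent.Helper82.EV
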