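import Mathlib
import Pool.Agent.Helper82.EV.Sector
import Pool.Agent.Helper82.EV.Expand

/-! # Project EV, CORE (d): the angle estimate and the size of the sum over roots (helper82) -/

set_option autoImplicit false

namespace Pool.Agent.Helper82.EV

open Polynomial Complex

theorem sinh_le_mul_exp (x : ℝ) : Real.sinh x ≤ x * Real.exp x := by
  have h1 : 1 - 2 * x ≤ Real.exp (-(2 * x)) := by
    have := Real.add_one_le_exp (-(2 * x)); linarith
  have h2 : Real.exp (-x) = Real.exp x * Real.exp (-(2 * x)) := by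
    rw [← Real.exp_add]; congr 1; ring
  rw [Real.sinh_eq, h2]
  nlinarith [Real.exp_pos x]

theorem cosh_sub_le (u v : ℝ) (hv : v ≤ u) (hu : 0 ≤ u) :
    Real.cosh u - Real.cosh v ≤ (u - v) * Real.sinh u := by
  set h := u - v with hh
  have hv' : v = u - h := by rw [hh]; ring
  have h0 : 0 ≤ h := by rw [hh]; linarith
  rw [hv', Real.cosh_sub]
  have h1 : Real.sinh h - h ≤ Real.cosh h - 1 := by
    rw [Real.sinh_eq, Real.cosh_eq]
    have := Real.add_one_le_exp (-h)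
    linarith
  have h2 : 0 ≤ Real.cosh h - 1 := by have := Real.one_le_cosh h; linarith
  have h3 : 0 ≤ Real.sinh u := Real.sinh_nonneg_iff.2 hu
  have h4 : Real.sinh u ≤ Real.cosh u := (Real.sinh_lt_cosh u).le
  nlinarith [mul_le_mul_of_nonneg_left h1 h3, mul_le_mul_of_nonneg_right h4 h2]

/-- The real `arsinh (√r / 2)`. -/
noncomputable def x0 (r : ℝ) : ℝ := Real.arsinh (Real.sqrt r / 2)

theorem sinh_x0 (r : ℝ) : Real.sinh (x0 r) = Real.sqrt r / 2 := Real.sinh_arsinh _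

theorem four_sinh_x0 (r : ℝ) (hr : 0 ≤ r) : 4 * Real.sinh (x0 r) ^ 2 = r := by
  rw [sinh_x0, div_pow, Real.sq_sqrt hr]; ring

theorem x0_pos (r : ℝ) (hr : 0 < r) : 0 < x0 r := by
  unfold x0; rw [Real.arsinh_pos_iff]; positivity

theorem x0_le (r Phi : ℝ) (hr : 0 < r) (hPhi : 0 < Phi) (h : r ≤ 4 * Real.sinh Phi ^ 2) :
    x0 r ≤ Phi := by
  have hsh : 0 < Real.sinh Phi := Real.sinh_pos_iff.2 hPhi
  rw [← Real.sinh_le_sinh, sinh_x0]
  have : Real.sqrt r ≤ 2 * Real.sinh Phi := by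
    rw [show (2 * Real.sinh Phi) = Real.sqrt ((2 * Real.sinh Phi) ^ 2) from
      (Real.sqrt_sq (by positivity)).symm]
    apply Real.sqrt_le_sqrt
    nlinarith
  linarith

theorem le_x0 (r Phi : ℝ) (hr : 0 < r) (hPhi : 0 < Phi) (h : r ≤ 4 * Real.sinh Phi ^ 2) :
    Real.sqrt r / (4 * Real.exp Phi) ≤ x0 r := by
  have h1 := sinh_le_mul_exp (x0 r)
  rw [sinh_x0] at h1
  have h2 := x0_le r Phi hr hPhi h
  have h3 : Real.exp (x0 r) ≤ Real.exp Phi := Real.exp_le_exp.2 h2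
  rw [div_le_iff₀ (by positivity)]
  have h4 := x0_pos r hr
  have h5 : x0 r * Real.exp (x0 r) ≤ x0 r * Real.exp Phi := mul_le_mul_of_nonneg_left h3 h4.le
  have h6 : 0 < x0 r * Real.exp Phi := by positivity
  nlinarith

theorem x0_le_sqrt (r : ℝ) (hr : 0 < r) : x0 r ≤ Real.sqrt r / 2 := by
  have h := Real.self_le_sinh_iff.2 (x0_pos r hr).le
  rwa [sinh_x0] at h

/-- The angle estimate. -/
theorem angle (Phi : ℝ) (hPhi : 0 < Phi) : ∃ κ : ℝ, 0 < κ ∧ ∀ r θ : ℝ, 0 < r →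
    r ≤ 4 * Real.sinh Phi ^ 2 → 0 < θ → θ ≤ 1 → θ * Real.sinh Phi ≤ 1 →
    ∃ φ : ℂ, 4 * sinh φ ^ 2 = r * exp (θ * I) ∧ 0 < φ.re ∧ φ.re ≤ Phi ∧ |φ.im| ≤ θ ∧
      κ * Real.sqrt r * θ ^ 2 ≤ x0 r - φ.re ∧ Real.sqrt r / (4 * Real.exp Phi) ≤ φ.re := by
  have hsh : 0 < Real.sinh Phi := Real.sinh_pos_iff.2 hPhi
  have hch : 0 < Real.cosh Phi := Real.cosh_pos Phi
  refine ⟨1 / (40 * Real.cosh Phi ^ 3), by positivity, fun r θ hr hrP hθ hθ1 hθs => ?_⟩
  set w0 : ℝ := Real.sqrt r / 2 with hw0d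
  have hw0 : 0 < w0 := by positivity
  have hw0s : w0 ≤ Real.sinh Phi := by
    have := x0_le r Phi hr hPhi hrP
    rw [← Real.sinh_le_sinh, sinh_x0] at this
    exact this
  have hw0sq : w0 ^ 2 = r / 4 := by rw [hw0d, div_pow, Real.sq_sqrt hr.le]; norm_num
  set w : ℂ := w0 * exp ((θ / 2 : ℝ) * I) with hw
  have hre : w.re = w0 * Real.cos (θ / 2) := by
    rw [hw, re_ofReal_mul, exp_ofReal_mul_I_re]
  have him : w.im = w0 * Real.sin (θ / 2) := by
    rw [hw, im_ofReal_mul, exp_ofReal_mul_I_im]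
  have hsin0 : 0 ≤ Real.sin (θ / 2) := Real.sin_nonneg_of_nonneg_of_le_pi (by linarith)
    (by linarith [Real.pi_gt_three])
  have hsin1 : Real.sin (θ / 2) ≤ θ / 2 := Real.sin_le (by linarith)
  have hcos : 1 / 2 ≤ Real.cos (θ / 2) := by
    have := Real.one_sub_sq_div_two_le_cos (x := θ / 2)
    nlinarith
  have hw2 : w ^ 2 = (w0 ^ 2 : ℝ) * exp (θ * I) := by
    rw [hw, mul_pow, ← exp_nat_mul]
    push_cast
    congr 2
    ring
  have hwn : ‖w‖ = w0 := by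
    rw [hw, norm_mul, norm_real, norm_exp_ofReal_mul_I, mul_one, Real.norm_eq_abs, abs_of_pos hw0]
  obtain ⟨φ, hs, hp, hi, hcosh⟩ := exists_arsinh w θ hθ.le
    (by rw [hre]; apply mul_pos hw0; linarith)
    (by
      rw [him, hre, abs_mul, abs_of_pos hw0, abs_of_nonneg hsin0]
      have e1 : w0 * Real.sin (θ / 2) ≤ w0 * (θ / 2) := mul_le_mul_of_nonneg_left hsin1 hw0.le
      have e2 : w0 * θ * (1 / 2) ≤ w0 * θ * Real.cos (θ / 2) :=
        mul_le_mul_of_nonneg_left hcos (by positivity)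
      linarith)
    (by
      rw [him, abs_mul, abs_of_pos hw0, abs_of_nonneg hsin0]
      have e1 : w0 * Real.sin (θ / 2) ≤ Real.sinh Phi * (θ / 2) :=
        mul_le_mul hw0s hsin1 hsin0 hsh.le
      linarith)
  have hφP : φ.re ≤ Phi := re_le_of w φ Phi hPhi hp hcosh (by rw [hwn]; exact hw0s)
  -- the norm of `1 + w²`
  have hcθ : Real.cos θ ≤ 1 := Real.cos_le_one θ
  have hcθ0 : 0 ≤ Real.cos θ := Real.cos_nonneg_of_mem_Icc ⟨by linarith [Real.pi_gt_three], by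
    linarith [Real.pi_gt_three]⟩
  have hN : ‖1 + w ^ 2‖ ^ 2 = (1 + w0 ^ 2) ^ 2 - 2 * w0 ^ 2 * (1 - Real.cos θ) := by
    rw [hw2, ← normSq_eq_norm_sq, normSq_apply]
    simp only [add_re, one_re, add_im, one_im, re_ofReal_mul, im_ofReal_mul,
      exp_ofReal_mul_I_re, exp_ofReal_mul_I_im]
    nlinarith [Real.sin_sq_add_cos_sq θ]
  have hNre : 1 + w0 ^ 2 * Real.cos θ ≤ ‖1 + w ^ 2‖ := by
    have := re_le_norm (1 + w ^ 2)
    rw [hw2] at this ⊢
    simpa only [add_re, one_re, re_ofReal_mul, exp_ofReal_mul_I_re] using this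
  have hNpos : 0 ≤ ‖1 + w ^ 2‖ := norm_nonneg _
  have hNle : ‖1 + w ^ 2‖ ≤ 1 + w0 ^ 2 := by
    refine (norm_add_le _ _).trans ?_
    rw [norm_one, norm_pow, hwn]
  have hD : w0 ^ 2 * (1 - Real.cos θ) ≤ (1 + w0 ^ 2) * ((1 + w0 ^ 2) - ‖1 + w ^ 2‖) := by
    nlinarith
  have hcosh0 : Real.cosh (2 * x0 r) = 1 + 2 * w0 ^ 2 := by
    rw [Real.cosh_two_mul, Real.cosh_sq, sinh_x0]; ring
  have hx0 := x0_pos r hr
  have hle : φ.re ≤ x0 r := by
    have h1 : Real.cosh (2 * φ.re) ≤ Real.cosh (2 * x0 r) := by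
      rw [hcosh, hcosh0, hwn]; linarith
    rw [Real.cosh_le_cosh, abs_of_pos (by linarith), abs_of_pos (by linarith)] at h1
    linarith
  have hdiff := cosh_sub_le (2 * x0 r) (2 * φ.re) (by linarith) (by linarith)
  have hsinh2 : Real.sinh (2 * x0 r) ≤ 2 * w0 * Real.cosh Phi := by
    rw [Real.sinh_two_mul, sinh_x0]
    have h1 : Real.cosh (x0 r) ≤ Real.cosh Phi := by
      rw [Real.cosh_le_cosh, abs_of_pos hx0, abs_of_pos hPhi]
      exact x0_le r Phi hr hPhi hrP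
    nlinarith
  have hw02 : 1 + w0 ^ 2 ≤ Real.cosh Phi ^ 2 := by
    rw [Real.cosh_sq]
    have : w0 ^ 2 ≤ Real.sinh Phi ^ 2 := pow_le_pow_left₀ hw0.le hw0s 2
    linarith
  refine ⟨φ, ?_, hp, hφP, hi, ?_, ?_⟩
  · rw [hs, hw2, hw0sq]; push_cast; ring
  · have hq : θ ^ 2 / 5 ≤ 1 - Real.cos θ := by
      have h1 := Real.cos_le_one_sub_mul_cos_sq (x := θ) (by
        rw [abs_of_pos hθ]; linarith [Real.pi_gt_three])
      have h2 : (1 : ℝ) / 5 ≤ 2 / Real.pi ^ 2 := by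
        rw [div_le_div_iff₀ (by norm_num) (by positivity)]
        nlinarith [Real.pi_lt_d2, Real.pi_gt_three]
      nlinarith [sq_nonneg θ]
    have e1 : (1 + w0 ^ 2) * ((1 + w0 ^ 2) - ‖1 + w ^ 2‖)
        ≤ (1 + w0 ^ 2) * ((2 * x0 r - 2 * φ.re) * (2 * w0 * Real.cosh Phi)) := by
      apply mul_le_mul_of_nonneg_left _ (by positivity)
      have e2 : (1 + w0 ^ 2) - ‖1 + w ^ 2‖ = Real.cosh (2 * x0 r) - Real.cosh (2 * φ.re) := by
        rw [hcosh, hcosh0, hwn]; ring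
      rw [e2]
      exact hdiff.trans (mul_le_mul_of_nonneg_left hsinh2 (by linarith))
    have e3 : (1 + w0 ^ 2) * ((2 * x0 r - 2 * φ.re) * (2 * w0 * Real.cosh Phi))
        ≤ Real.cosh Phi ^ 2 * ((2 * x0 r - 2 * φ.re) * (2 * w0 * Real.cosh Phi)) := by
      apply mul_le_mul_of_nonneg_right hw02
      apply mul_nonneg (by linarith) (by positivity)
    have e4 : w0 * (w0 * (θ ^ 2 / 5)) ≤ w0 * (4 * Real.cosh Phi ^ 3 * (x0 r - φ.re)) := by
      calc w0 * (w0 * (θ ^ 2 / 5)) = w0 ^ 2 * (θ ^ 2 / 5) := by ring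
        _ ≤ w0 ^ 2 * (1 - Real.cos θ) := mul_le_mul_of_nonneg_left hq (by positivity)
        _ ≤ _ := (hD.trans e1).trans (e3.trans (le_of_eq (by ring)))
    have e5 := le_of_mul_le_mul_left e4 hw0
    rw [show 1 / (40 * Real.cosh Phi ^ 3) * Real.sqrt r * θ ^ 2
      = (w0 * (θ ^ 2 / 5)) / (4 * Real.cosh Phi ^ 3) by rw [hw0d]; field_simp; ring]
    rw [div_le_iff₀ (by positivity)]
    linarith
  · have h1 : w0 ^ 2 ≤ 2 * Real.sinh φ.re ^ 2 := by
      have h2 : Real.cosh (2 * φ.re) = 1 + 2 * Real.sinh φ.re ^ 2 := by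
        rw [Real.cosh_two_mul, Real.cosh_sq]; ring
      rw [hcosh, hwn] at h2
      have h3 : 0 ≤ w0 ^ 2 * Real.cos θ := mul_nonneg (sq_nonneg w0) hcθ0
      linarith
    have h3 : 0 < Real.sinh φ.re := Real.sinh_pos_iff.2 hp
    have h4 : w0 ≤ 2 * Real.sinh φ.re := by
      have h5 : w0 ^ 2 ≤ (2 * Real.sinh φ.re) ^ 2 := by
        have := sq_nonneg (Real.sinh φ.re)
        linarith [show (2 * Real.sinh φ.re) ^ 2 = 4 * Real.sinh φ.re ^ 2 by ring]
      exact (abs_le_of_sq_le_sq' h5 (by positivity)).2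
    have h5 := sinh_le_mul_exp φ.re
    have h6 : Real.exp φ.re ≤ Real.exp Phi := Real.exp_le_exp.2 hφP
    have h7 : φ.re * Real.exp φ.re ≤ φ.re * Real.exp Phi := mul_le_mul_of_nonneg_left h6 hp.le
    rw [div_le_iff₀ (by positivity)]
    rw [hw0d] at h4
    linarith

end Pool.Agent.Helper82.EV
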