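import Mathlib
import Pool.Agent.Helper82.EV.Angle
import Pool.Agent.Helper48.EV.Count

/-! # Project EV, CORE (b), (c): `∑ |r/(r - z)| ≤ S (L √r + log L)` (helper82) -/

set_option autoImplicit false

namespace Pool.Agent.Helper82.EV

open Polynomial Complex

/-- Hypothesis H1. -/
def H1 (Phi th0 c C : ℝ) (a : ℕ) (L : ℝ) (P : ℝ[X]) : Prop :=
  ∀ φ : ℂ, 0 < φ.re → φ.re ≤ Phi → |φ.im| ≤ th0 →
    c * φ.re ^ a * Real.exp (L * φ.re) ≤ ‖(P.map (algebraMap ℝ ℂ)).eval (4 * sinh φ ^ 2)‖ ∧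
    φ.re ^ a * ‖(P.map (algebraMap ℝ ℂ)).eval (4 * sinh φ ^ 2)‖ ≤ C * Real.exp (L * φ.re)

/-- Dyadic (factor 4) bound, one root. -/
theorem shell (t r : ℝ) (ht : 0 ≤ t) (hr : 0 < r) (J : ℕ) :
    min 1 (4 * r / t) ≤ ∑ j ∈ Finset.range J, 4 * ((4 : ℝ) ^ j)⁻¹ * (if t ≤ 4 ^ (j + 1) * r then 1 else 0)
      + 4 * ((4 : ℝ) ^ J)⁻¹ := by
  induction J with
  | zero => simp only [Finset.range_zero, Finset.sum_empty, pow_zero, inv_one]
            exact (min_le_left _ _).trans (by norm_num)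
  | succ J ih =>
    rw [Finset.sum_range_succ]
    by_cases h : t ≤ 4 ^ (J + 1) * r
    · rw [if_pos h]
      have : 0 < 4 * ((4 : ℝ) ^ (J + 1))⁻¹ := by positivity
      linarith
    · rw [if_neg h]
      push Not at h
      have h1 : 4 * r / t ≤ 4 * ((4 : ℝ) ^ (J + 1))⁻¹ := by
        have ht' : 0 < t := lt_trans (by positivity) h
        rw [div_le_iff₀ ht']
        calc 4 * r = 4 * ((4 : ℝ) ^ (J + 1))⁻¹ * (4 ^ (J + 1) * r) := by field_simp
          _ ≤ 4 * ((4 : ℝ) ^ (J + 1))⁻¹ * t := mul_le_mul_of_nonneg_left h.le (by positivity)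
      have h2 : 0 ≤ ∑ j ∈ Finset.range J, 4 * ((4 : ℝ) ^ j)⁻¹ * (if t ≤ 4 ^ (j + 1) * r then 1 else 0) := by
        apply Finset.sum_nonneg
        intro j _
        split_ifs <;> positivity
      have h3 := min_le_right (1 : ℝ) (4 * r / t)
      linarith

/-- Dyadic bound, all roots. -/
theorem shells (m : Multiset ℂ) (r : ℝ) (hr : 0 < r) (J : ℕ) :
    (m.map (fun z => min 1 (4 * r / ‖z‖))).sum ≤
      ∑ j ∈ Finset.range J, 4 * ((4 : ℝ) ^ j)⁻¹ * ((m.filter (fun z => ‖z‖ ≤ 4 ^ (j + 1) * r)).card : ℝ)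
      + 4 * ((4 : ℝ) ^ J)⁻¹ * (m.card : ℝ) := by
  induction m using Multiset.induction_on with
  | empty => simp
  | cons z m ih =>
    rw [Multiset.map_cons, Multiset.sum_cons, Multiset.card_cons]
    have h1 := shell ‖z‖ r (norm_nonneg _) hr J
    have h2 : ∑ j ∈ Finset.range J, 4 * ((4 : ℝ) ^ j)⁻¹ *
        (((z ::ₘ m).filter (fun z => ‖z‖ ≤ 4 ^ (j + 1) * r)).card : ℝ)
        = ∑ j ∈ Finset.range J, 4 * ((4 : ℝ) ^ j)⁻¹ * (if ‖z‖ ≤ 4 ^ (j + 1) * r then 1 else 0)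
        + ∑ j ∈ Finset.range J, 4 * ((4 : ℝ) ^ j)⁻¹ *
          ((m.filter (fun z => ‖z‖ ≤ 4 ^ (j + 1) * r)).card : ℝ) := by
      rw [← Finset.sum_add_distrib]
      apply Finset.sum_congr rfl
      intro j _
      by_cases h : ‖z‖ ≤ 4 ^ (j + 1) * r
      · rw [Multiset.filter_cons_of_pos (p := fun z : ℂ => ‖z‖ ≤ 4 ^ (j + 1) * r) m h,
          Multiset.card_cons, if_pos h]
        push_cast; ring
      · rw [Multiset.filter_cons_of_neg (p := fun z : ℂ => ‖z‖ ≤ 4 ^ (j + 1) * r) m h, if_neg h]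
        ring
    rw [h2]
    push_cast
    linarith

/-- Number of roots in a disc. -/
theorem count (Phi th0 c C : ℝ) (a : ℕ) (hPhi : 0 < Phi) (hth : 0 < th0) (hC : 0 < C) :
    ∃ A : ℝ, 0 < A ∧ ∀ (L : ℝ) (P : ℝ[X]), Real.exp 1 ≤ L → (∀ i, 0 ≤ P.coeff i) →
      1 ≤ P.coeff 0 → H1 Phi th0 c C a L P → ∀ ρ : ℝ, 1 ≤ L * Real.sqrt ρ →
      0 < ρ → ρ ≤ 2 * Real.sinh Phi ^ 2 →
      (((zz P).filter (fun z => ‖z‖ ≤ ρ)).card : ℝ) ≤ A * (L * Real.sqrt ρ + Real.log L) := by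
  -- constants
  set G : ℝ := |Real.log C| + a * (Real.log 4 + Phi) + a with hG
  have hG0 : 0 ≤ G := by
    have : 0 ≤ Real.log 4 := Real.log_nonneg (by norm_num)
    positivity
  refine ⟨2 * (1 + G), by positivity, fun L P hL hc h0 hH ρ hLρ hρ hρP => ?_⟩
  have hL1 : 1 ≤ Real.log L := by
    rw [Real.le_log_iff_exp_le (lt_of_lt_of_le (Real.exp_pos 1) hL)]; exact hL
  have hL0 : 0 < L := lt_of_lt_of_le (Real.exp_pos 1) hL
  have hPne : P ≠ 0 := by
    rintro rfl; simp at h0; linarith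
  have hcount := Pool.Agent.Helper48.EV.two_pow_card_roots_real P hPne hc ρ hρ
  set N := ((zz P).filter (fun z => ‖z‖ ≤ ρ)).card with hN
  change (2 : ℝ) ^ N * P.coeff 0 ≤ P.eval (2 * ρ) at hcount
  have h2ρ : 0 < 2 * ρ := by positivity
  have h2ρP : 2 * ρ ≤ 4 * Real.sinh Phi ^ 2 := by linarith
  set x := x0 (2 * ρ) with hx
  have hx0 : 0 < x := x0_pos _ h2ρ
  have hxP : x ≤ Phi := x0_le _ _ h2ρ hPhi h2ρP
  have hxl := le_x0 (2 * ρ) Phi h2ρ hPhi h2ρP
  have hxu := x0_le_sqrt (2 * ρ) h2ρ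
  obtain ⟨_, hup⟩ := hH (x : ℂ) (by simpa using hx0) (by simpa using hxP) (by simpa using hth.le)
  have hval : (4 : ℂ) * sinh (x : ℂ) ^ 2 = ((2 * ρ : ℝ) : ℂ) := by
    rw [← four_sinh_x0 (2 * ρ) h2ρ.le]; push_cast; rfl
  have hPpos : 0 < P.eval (2 * ρ) := lt_of_lt_of_le (by positivity) hcount
  rw [hval, eval_map_real, norm_real, Real.norm_eq_abs, abs_of_pos hPpos, ofReal_re] at hup
  -- take logs
  have h1 : (N : ℝ) * Real.log 2 ≤ Real.log (P.eval (2 * ρ)) := by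
    have h2 : (2 : ℝ) ^ N ≤ P.eval (2 * ρ) := by
      refine le_trans ?_ hcount
      exact le_mul_of_one_le_right (by positivity) h0
    have h3 := Real.log_le_log (by positivity) h2
    rwa [Real.log_pow] at h3
  have h2 : a * Real.log x + Real.log (P.eval (2 * ρ)) ≤ Real.log C + L * x := by
    have h3 := Real.log_le_log (by positivity) hup
    rwa [Real.log_mul (by positivity) hPpos.ne', Real.log_pow,
      Real.log_mul hC.ne' (Real.exp_pos _).ne', Real.log_exp] at h3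
  have hsρ : 0 < Real.sqrt ρ := Real.sqrt_pos.2 hρ
  have hs2 : Real.sqrt ρ ≤ Real.sqrt (2 * ρ) := Real.sqrt_le_sqrt (by linarith)
  have hs3 : Real.sqrt (2 * ρ) ≤ 2 * Real.sqrt ρ := by
    rw [show 2 * Real.sqrt ρ = Real.sqrt ((2 * Real.sqrt ρ) ^ 2) from
      (Real.sqrt_sq (by positivity)).symm]
    apply Real.sqrt_le_sqrt
    rw [mul_pow, Real.sq_sqrt hρ.le]; linarith
  have h4 : -(Real.log L) - Real.log 4 - Phi ≤ Real.log x := by
    have h5 : (L)⁻¹ / (4 * Real.exp Phi) ≤ x := by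
      refine le_trans ?_ hxl
      apply div_le_div_of_nonneg_right _ (by positivity)
      refine le_trans ?_ hs2
      rw [inv_le_iff_one_le_mul₀ hL0]
      linarith
    have h6 := Real.log_le_log (by positivity) h5
    rw [Real.log_div (by positivity) (by positivity), Real.log_inv,
      Real.log_mul (by norm_num) (Real.exp_pos _).ne', Real.log_exp] at h6
    linarith
  have hlog2 : 1 / 2 ≤ Real.log 2 := by
    have := Real.log_two_gt_d9; linarith
  have h7 : (N : ℝ) * (1 / 2) ≤ (N : ℝ) * Real.log 2 := mul_le_mul_of_nonneg_left hlog2 (Nat.cast_nonneg _)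
  have h8 : (a : ℝ) * (-(Real.log L) - Real.log 4 - Phi) ≤ a * Real.log x :=
    mul_le_mul_of_nonneg_left h4 (Nat.cast_nonneg _)
  have h9 : L * x ≤ L * Real.sqrt ρ := by
    apply mul_le_mul_of_nonneg_left _ hL0.le
    linarith
  have h10 : Real.log C ≤ |Real.log C| := le_abs_self _
  have ha0 : (0 : ℝ) ≤ a := Nat.cast_nonneg _
  have hGl : G ≤ G * Real.log L := le_mul_of_one_le_right hG0 hL1
  have hal : (a : ℝ) ≤ G := by
    have : 0 ≤ Real.log 4 := Real.log_nonneg (by norm_num)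
    have := abs_nonneg (Real.log C)
    have : 0 ≤ (a : ℝ) * (Real.log 4 + Phi) := by positivity
    linarith
  have h11 : (a : ℝ) * Real.log L ≤ G * Real.log L := mul_le_mul_of_nonneg_right hal (by linarith)
  have hGexp : |Real.log C| + a * (Real.log 4 + Phi) ≤ G := by linarith
  have hlin : (N : ℝ) * (1 / 2) ≤ L * Real.sqrt ρ + (1 + G) * Real.log L + G * (Real.log L - Real.log L)
      + G * Real.log L := by nlinarith
  have hLs : 0 ≤ L * Real.sqrt ρ := by positivity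
  nlinarith

/-- Roots stay away from `r`. -/
theorem root_far (Phi th0 c C : ℝ) (a : ℕ) (hPhi : 0 < Phi) (hth : 0 < th0) (hc : 0 < c) :
    ∃ δ : ℝ, 0 < δ ∧ δ ≤ 1 / 4 ∧ ∀ (L : ℝ) (P : ℝ[X]), H1 Phi th0 c C a L P → ∀ r : ℝ, 0 < r →
      r ≤ 2 * Real.sinh Phi ^ 2 → ∀ z ∈ zz P, δ * r ≤ ‖z - r‖ := by
  have hsh : 0 < Real.sinh Phi := Real.sinh_pos_iff.2 hPhi
  refine ⟨min (1 / 4) (min (th0 / 2) (1 / (2 * Real.sinh Phi))), by positivity, min_le_left _ _,
    fun L P hH r hr hrP z hz => ?_⟩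
  set δ := min (1 / 4) (min (th0 / 2) (1 / (2 * Real.sinh Phi))) with hδ
  have hδ0 : 0 < δ := by positivity
  have hδ1 : δ ≤ 1 / 4 := min_le_left _ _
  have hδ2 : δ ≤ th0 / 2 := (min_le_right _ _).trans (min_le_left _ _)
  have hδ3 : δ ≤ 1 / (2 * Real.sinh Phi) := (min_le_right _ _).trans (min_le_right _ _)
  by_contra hcon
  push Not at hcon
  obtain ⟨φ, h1, h2, h3, h4⟩ := exists_phi_near z r δ Phi hr hδ0 hδ1 hPhi hrP
    (by rw [le_div_iff₀ (by positivity)] at hδ3; linarith) hcon.le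
  have h5 := (hH φ h2 h3 (h4.trans (by linarith))).1
  have h6 : (P.map (algebraMap ℝ ℂ)).eval z = 0 := (mem_roots'.1 hz).2
  rw [h1, h6, norm_zero] at h5
  have : 0 < c * φ.re ^ a * Real.exp (L * φ.re) := by positivity
  linarith

/-- **Size of the sum over the roots.** -/
theorem size_bound (Phi th0 c C : ℝ) (a : ℕ) (hPhi : 0 < Phi) (hth : 0 < th0) (hc : 0 < c)
    (hC : 0 < C) :
    ∃ B S : ℝ, 0 < B ∧ 0 < S ∧ ∀ (L : ℝ) (P : ℝ[X]), Real.exp 1 ≤ L → (∀ i, 0 ≤ P.coeff i) →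
      1 ≤ P.coeff 0 → 2 * (P.natDegree : ℝ) ≤ L → H1 Phi th0 c C a L P → ∀ r : ℝ,
      1 ≤ L * Real.sqrt r → 0 < r → r ≤ 2 * Real.sinh Phi ^ 2 →
      (∀ z ∈ zz P, ‖pr r z‖ ≤ B) ∧ size P r ≤ S * (L * Real.sqrt r + Real.log L) := by
  have hsh : 0 < Real.sinh Phi := Real.sinh_pos_iff.2 hPhi
  obtain ⟨δ, hδ0, hδ1, hfar⟩ := root_far Phi th0 c C a hPhi hth hc
  obtain ⟨A, hA, hcnt⟩ := count Phi th0 c C a hPhi hth hC
  set R : ℝ := 2 * Real.sinh Phi ^ 2 with hR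
  have hR0 : 0 < R := by positivity
  refine ⟨1 / δ, (1 / δ) * (16 * A + 8 / Real.sqrt R), by positivity, by positivity,
    fun L P hL hcf h0 hdeg hH r hLr hr hrP => ?_⟩
  have hL1 : 1 ≤ Real.log L := by
    rw [Real.le_log_iff_exp_le (lt_of_lt_of_le (Real.exp_pos 1) hL)]; exact hL
  have hL0 : 0 < L := lt_of_lt_of_le (Real.exp_pos 1) hL
  have hPne : P ≠ 0 := by
    rintro rfl; simp at h0; linarith
  have hB1 : 1 ≤ 1 / δ := by rw [le_div_iff₀ hδ0]; linarith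
  -- pointwise
  have hpt : ∀ z ∈ zz P, ‖pr r z‖ ≤ (1 / δ) * min 1 (4 * r / ‖z‖) := by
    intro z hz
    have h1 := hfar L P hH r hr hrP z hz
    have hpr : ‖pr r z‖ = r / ‖z - r‖ := by
      unfold pr
      rw [norm_div, norm_real, Real.norm_eq_abs, abs_of_pos hr, norm_sub_rev]
    have hzr : 0 < ‖z - r‖ := lt_of_lt_of_le (by positivity) h1
    have hz0 : z ≠ 0 := by
      rintro rfl
      have h6 : (P.map (algebraMap ℝ ℂ)).eval 0 = 0 := (mem_roots'.1 hz).2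
      rw [← coeff_zero_eq_eval_zero, coeff_map] at h6
      have h7 : P.coeff 0 = 0 := by simpa using h6
      rw [h7] at h0
      linarith
    have hzn : 0 < ‖z‖ := norm_pos_iff.2 hz0
    rw [hpr]
    by_cases hcase : ‖z‖ ≤ 2 * r
    · have hmin : min 1 (4 * r / ‖z‖) = 1 := by
        apply min_eq_left
        rw [le_div_iff₀ hzn]; linarith
      rw [hmin, mul_one, div_le_div_iff₀ hzr hδ0]
      linarith
    · push Not at hcase
      have h2 : ‖z‖ / 2 ≤ ‖z - r‖ := by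
        have h3 : ‖z‖ ≤ ‖z - r‖ + ‖(r : ℂ)‖ := by
          have := norm_add_le (z - r) (r : ℂ)
          simpa using this
        rw [norm_real, Real.norm_eq_abs, abs_of_pos hr] at h3
        linarith
      have h3 : r / ‖z - r‖ ≤ 2 * r / ‖z‖ := by
        rw [div_le_div_iff₀ hzr hzn]
        nlinarith
      have h4 : 2 * r / ‖z‖ ≤ min 1 (4 * r / ‖z‖) := by
        apply le_min
        · rw [div_le_one hzn]; exact hcase.le
        · apply div_le_div_of_nonneg_right _ hzn.le; linarith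
      have h5 : 0 ≤ min 1 (4 * r / ‖z‖) := by positivity
      calc r / ‖z - r‖ ≤ min 1 (4 * r / ‖z‖) := h3.trans h4
        _ ≤ (1 / δ) * min 1 (4 * r / ‖z‖) := le_mul_of_one_le_left h5 hB1
  refine ⟨fun z hz => (hpt z hz).trans ?_, ?_⟩
  · have : min 1 (4 * r / ‖z‖) ≤ 1 := min_le_left _ _
    exact mul_le_of_le_one_right (by positivity) this
  -- number of shells
  obtain ⟨J, hJ1, hJ2⟩ : ∃ J : ℕ, 4 ^ J * r ≤ R ∧ R < 4 ^ (J + 1) * r := by
    have hq : 1 ≤ R / r := by rw [le_div_iff₀ hr]; linarith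
    obtain ⟨J, h1, h2⟩ := exists_nat_pow_near hq (y := (4 : ℝ)) (by norm_num)
    exact ⟨J, by rwa [le_div_iff₀ hr] at h1, by rwa [div_lt_iff₀ hr] at h2⟩
  have hsum := shells (zz P) r hr J
  have hsize : size P r ≤ (1 / δ) * ((zz P).map (fun z => min 1 (4 * r / ‖z‖))).sum := by
    unfold size
    rw [← Multiset.sum_map_mul_left]
    exact Multiset.sum_map_le_sum_map _ _ hpt
  have hs0 : 0 < Real.sqrt r := Real.sqrt_pos.2 hr
  have hterm : ∀ j ∈ Finset.range J, 4 * ((4 : ℝ) ^ j)⁻¹ *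
      (((zz P).filter (fun z => ‖z‖ ≤ 4 ^ (j + 1) * r)).card : ℝ)
      ≤ (8 * A * (L * Real.sqrt r) + 4 * A * Real.log L) * ((2 : ℝ) ^ j)⁻¹ := by
    intro j hj
    have hj' : j + 1 ≤ J := Finset.mem_range.1 hj
    have h4 : (4 : ℝ) ^ (j + 1) ≤ 4 ^ J := pow_le_pow_right₀ (by norm_num) hj'
    have h5 : (4 : ℝ) ^ (j + 1) * r ≤ R := (mul_le_mul_of_nonneg_right h4 hr.le).trans hJ1
    have hsq : Real.sqrt (4 ^ (j + 1) * r) = 2 ^ (j + 1) * Real.sqrt r := by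
      rw [Real.sqrt_mul (by positivity)]
      congr 1
      rw [show (4 : ℝ) ^ (j + 1) = (2 ^ (j + 1)) ^ 2 by rw [← pow_mul, mul_comm, pow_mul]; norm_num]
      exact Real.sqrt_sq (by positivity)
    have h2j : (1 : ℝ) ≤ 2 ^ (j + 1) := one_le_pow₀ (by norm_num)
    have h6 := hcnt L P hL hcf h0 hH (4 ^ (j + 1) * r) (by
      rw [hsq]
      calc (1 : ℝ) ≤ L * Real.sqrt r := hLr
        _ ≤ 2 ^ (j + 1) * (L * Real.sqrt r) := le_mul_of_one_le_left (by positivity) h2j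
        _ = L * (2 ^ (j + 1) * Real.sqrt r) := by ring) (by positivity) h5
    rw [hsq] at h6
    have h22 : (4 : ℝ) ^ j = 2 ^ j * 2 ^ j := by rw [← mul_pow]; norm_num
    calc 4 * ((4 : ℝ) ^ j)⁻¹ * (((zz P).filter (fun z => ‖z‖ ≤ 4 ^ (j + 1) * r)).card : ℝ)
        ≤ 4 * ((4 : ℝ) ^ j)⁻¹ * (A * (L * (2 ^ (j + 1) * Real.sqrt r) + Real.log L)) :=
          mul_le_mul_of_nonneg_left h6 (by positivity)
      _ = 8 * A * (L * Real.sqrt r) * ((2 : ℝ) ^ j)⁻¹
          + 4 * A * Real.log L * (((2 : ℝ) ^ j)⁻¹ * ((2 : ℝ) ^ j)⁻¹) := by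
          rw [h22, pow_succ]; field_simp; ring
      _ ≤ 8 * A * (L * Real.sqrt r) * ((2 : ℝ) ^ j)⁻¹
          + 4 * A * Real.log L * (((2 : ℝ) ^ j)⁻¹ * 1) := by
          have h7 : ((2 : ℝ) ^ j)⁻¹ ≤ 1 := inv_le_one_of_one_le₀ (one_le_pow₀ (by norm_num))
          gcongr
      _ = _ := by ring
  have hgeo : ∑ j ∈ Finset.range J, ((2 : ℝ) ^ j)⁻¹ ≤ 2 := by
    have h1 : ∀ j : ℕ, ((2 : ℝ) ^ j)⁻¹ = (1 / 2 : ℝ) ^ j := fun j => by rw [one_div, inv_pow]
    simp_rw [h1]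
    exact sum_geometric_two_le J
  have hS1 : ∑ j ∈ Finset.range J, 4 * ((4 : ℝ) ^ j)⁻¹ *
      (((zz P).filter (fun z => ‖z‖ ≤ 4 ^ (j + 1) * r)).card : ℝ)
      ≤ (8 * A * (L * Real.sqrt r) + 4 * A * Real.log L) * 2 := by
    refine (Finset.sum_le_sum hterm).trans ?_
    rw [← Finset.mul_sum]
    exact mul_le_mul_of_nonneg_left hgeo (by positivity)
  have hcard : ((zz P).card : ℝ) ≤ L / 2 := by
    have h1 : (zz P).card ≤ P.natDegree := by
      unfold zz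
      refine (card_roots' _).trans ?_
      exact natDegree_map_le
    have h2 : ((zz P).card : ℝ) ≤ P.natDegree := by exact_mod_cast h1
    linarith
  have hsR : 0 < Real.sqrt R := Real.sqrt_pos.2 hR0
  have hS2 : 4 * ((4 : ℝ) ^ J)⁻¹ * ((zz P).card : ℝ) ≤ 8 / Real.sqrt R * (L * Real.sqrt r) := by
    have h1 : ((4 : ℝ) ^ J)⁻¹ ≤ 4 * r / R := by
      rw [inv_le_iff_one_le_mul₀ (by positivity), div_mul_eq_mul_div, le_div_iff₀ hR0]
      rw [pow_succ] at hJ2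
      linarith
    have h2 : r / R ≤ Real.sqrt r / Real.sqrt R := by
      have h3 : Real.sqrt r / Real.sqrt R ≤ 1 := by
        rw [div_le_one hsR]; exact Real.sqrt_le_sqrt hrP
      have h4 : r / R = (Real.sqrt r / Real.sqrt R) * (Real.sqrt r / Real.sqrt R) := by
        rw [div_mul_div_comm, Real.mul_self_sqrt hr.le, Real.mul_self_sqrt hR0.le]
      rw [h4]
      exact mul_le_of_le_one_right (by positivity) h3
    calc 4 * ((4 : ℝ) ^ J)⁻¹ * ((zz P).card : ℝ) ≤ 4 * (4 * r / R) * (L / 2) := by gcongr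
      _ = 8 * L * (r / R) := by ring
      _ ≤ 8 * L * (Real.sqrt r / Real.sqrt R) := mul_le_mul_of_nonneg_left h2 (by positivity)
      _ = _ := by ring
  have hfin : ((zz P).map (fun z => min 1 (4 * r / ‖z‖))).sum
      ≤ (16 * A + 8 / Real.sqrt R) * (L * Real.sqrt r + Real.log L) := by
    have h1 : 0 ≤ 8 / Real.sqrt R * Real.log L := by positivity
    have h2 : 0 ≤ A * Real.log L := by positivity
    have h3 := hsum.trans (add_le_add hS1 hS2)
    refine h3.trans ?_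
    have h4 : (16 * A + 8 / Real.sqrt R) * (L * Real.sqrt r + Real.log L)
      = 16 * A * (L * Real.sqrt r) + 16 * (A * Real.log L) + 8 / Real.sqrt R * (L * Real.sqrt r)
        + 8 / Real.sqrt R * Real.log L := by ring
    rw [h4]
    linarith
  calc size P r ≤ (1 / δ) * ((zz P).map (fun z => min 1 (4 * r / ‖z‖))).sum := hsize
    _ ≤ (1 / δ) * ((16 * A + 8 / Real.sqrt R) * (L * Real.sqrt r + Real.log L)) :=
        mul_le_mul_of_nonneg_left hfin (by positivity)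
    _ = _ := by ring

end Pool.Agent.Helper82.EV
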