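import Mathlib
import Pool.Agent.Helper82.EV.Size

/-! # Project EV, CORE (c) + (d): local expansion with variance `≥ v L √r` (helper82) -/

set_option autoImplicit false

namespace Pool.Agent.Helper82.EV

open Polynomial Complex

theorem abs_mean_le (P : ℝ[X]) (r : ℝ) (hP : P.eval r ≠ 0) : |mean P r| ≤ size P r := by
  have h := sum_eq_mean P r hP
  have h1 : |mean P r| = ‖(mean P r : ℂ)‖ := by rw [norm_real, Real.norm_eq_abs]
  rw [h1, ← h]
  unfold size
  have := norm_multiset_sum_le ((zz P).map (pr r))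
  rwa [Multiset.map_map] at this

theorem abs_var_le (P : ℝ[X]) (r B : ℝ) (hB : 0 ≤ B) (hb : ∀ z ∈ zz P, ‖pr r z‖ ≤ B) :
    |var P r| ≤ (B + 1) * size P r := by
  have h1 : |var P r| = ‖(var P r : ℂ)‖ := by rw [norm_real, Real.norm_eq_abs]
  rw [h1, ← var_real P r]
  unfold size
  refine (norm_multiset_sum_le _).trans ?_
  rw [Multiset.map_map, ← Multiset.sum_map_mul_left]
  apply Multiset.sum_map_le_sum_map
  intro z hz
  simp only [Function.comp, norm_mul]
  have h2 : ‖1 - pr r z‖ ≤ B + 1 := by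
    refine (norm_sub_le _ _).trans ?_
    rw [norm_one]
    linarith [hb z hz]
  calc ‖pr r z‖ * ‖1 - pr r z‖ ≤ ‖pr r z‖ * (B + 1) := mul_le_mul_of_nonneg_left h2 (norm_nonneg _)
    _ = (B + 1) * ‖pr r z‖ := by ring

/-- **(c) + (d).** -/
theorem locV (Phi th0 c C : ℝ) (a : ℕ) (hPhi : 0 < Phi) (hth : 0 < th0) (hc : 0 < c)
    (hC : 0 < C) :
    ∃ d K v C1 : ℝ, 0 < d ∧ 0 < K ∧ 0 < v ∧ 0 < C1 ∧ ∀ (L : ℝ) (P : ℝ[X]),
      Real.exp 1 ≤ L → (∀ i, 0 ≤ P.coeff i) → 1 ≤ P.coeff 0 → 2 * (P.natDegree : ℝ) ≤ L →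
      H1 Phi th0 c C a L P →
      (∀ r : ℝ, 1 ≤ L * Real.sqrt r → 0 < r → r ≤ 2 * Real.sinh Phi ^ 2 →
        |mean P r| ≤ K * (L * Real.sqrt r + Real.log L)) ∧
      ∀ r : ℝ, 0 < r → r ≤ 2 * Real.sinh Phi ^ 2 → C1 * Real.log L ≤ L * Real.sqrt r →
        v * (L * Real.sqrt r) ≤ var P r ∧ var P r ≤ K * (L * Real.sqrt r) ∧
        ∀ x : ℝ, |x| ≤ d → ∃ E : ℂ, ‖E‖ ≤ K * (L * Real.sqrt r) * |x| ^ 3 ∧
          (P.map (algebraMap ℝ ℂ)).eval ((r : ℂ) * exp (x * I))
            = ((P.eval r : ℝ) : ℂ) * exp (x * I * mean P r - var P r * x ^ 2 / 2 + E) := by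
  have hsh : 0 < Real.sinh Phi := Real.sinh_pos_iff.2 hPhi
  obtain ⟨B, S, hB, hS, hsize⟩ := size_bound Phi th0 c C a hPhi hth hc hC
  obtain ⟨κ, hκ, hang⟩ := angle Phi hPhi
  -- the fixed angle
  set θ : ℝ := min (min 1 th0) (min (1 / Real.sinh Phi)
    (min (1 / (2 * (B + 1))) (κ / (8 * (B + 1) ^ 2 * S)))) with hθdef
  have hθ0 : 0 < θ := by positivity
  have hθ1 : θ ≤ 1 := (min_le_left _ _).trans (min_le_left _ _)
  have hθ2 : θ ≤ th0 := (min_le_left _ _).trans (min_le_right _ _)
  have hθ3 : θ * Real.sinh Phi ≤ 1 := by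
    have : θ ≤ 1 / Real.sinh Phi := (min_le_right _ _).trans (min_le_left _ _)
    rwa [le_div_iff₀ hsh] at this
  have hθ4 : θ ≤ 1 / (2 * (B + 1)) :=
    (min_le_right _ _).trans ((min_le_right _ _).trans (min_le_left _ _))
  have hθ5 : (B + 1) ^ 2 * (2 * S) * θ ≤ κ / 4 := by
    have : θ ≤ κ / (8 * (B + 1) ^ 2 * S) :=
      (min_le_right _ _).trans ((min_le_right _ _).trans (min_le_right _ _))
    rw [le_div_iff₀ (by positivity)] at this
    linarith
  -- the logarithmic loss
  set G : ℝ := |Real.log C - Real.log c| + 2 * a * (Real.log 4 + Phi) + 2 * a with hG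
  have hlog4 : 0 ≤ Real.log 4 := Real.log_nonneg (by norm_num)
  have hG0 : 0 ≤ G := by positivity
  have hGa : |Real.log C - Real.log c| + 2 * a * (Real.log 4 + Phi) + 2 * a = G := rfl
  set C1 : ℝ := 1 + 4 * G / (κ * θ ^ 2) with hC1
  have hC11 : 1 ≤ C1 := by
    have : 0 ≤ 4 * G / (κ * θ ^ 2) := by positivity
    linarith
  refine ⟨θ, (B + 1) ^ 2 * (2 * S), κ, C1, hθ0, by positivity, hκ, by linarith,
    fun L P hL hcf h0 hdeg hH => ⟨fun r hLr hr hrP => ?_, fun r hr hrP hCr => ?_⟩⟩
  · have hPr : 0 < P.eval r := by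
      have h1 := hcf
      have : P.coeff 0 ≤ P.eval r := by
        rw [eval_eq_sum_range]
        rw [Finset.sum_range_succ']
        simp only [pow_zero, mul_one]
        have : 0 ≤ ∑ k ∈ Finset.range P.natDegree, P.coeff (k + 1) * r ^ (k + 1) :=
          Finset.sum_nonneg fun k _ => mul_nonneg (hcf _) (by positivity)
        linarith
      linarith
    obtain ⟨_, hs⟩ := hsize L P hL hcf h0 hdeg hH r hLr hr hrP
    have h1 := abs_mean_le P r hPr.ne'
    have hL1 : 1 ≤ Real.log L := by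
      rw [Real.le_log_iff_exp_le (lt_of_lt_of_le (Real.exp_pos 1) hL)]; exact hL
    have h2 : 0 ≤ L * Real.sqrt r + Real.log L := by linarith
    have h3 : S * (L * Real.sqrt r + Real.log L)
        ≤ (B + 1) ^ 2 * (2 * S) * (L * Real.sqrt r + Real.log L) := by
      apply mul_le_mul_of_nonneg_right _ h2
      nlinarith [mul_pos hB hS, mul_pos hB (mul_pos hB hS)]
    linarith
  · have hL0 : 0 < L := lt_of_lt_of_le (Real.exp_pos 1) hL
    have hL1 : 1 ≤ Real.log L := by
      rw [Real.le_log_iff_exp_le hL0]; exact hL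
    have hlL : Real.log L ≤ L * Real.sqrt r := by
      refine le_trans ?_ hCr
      exact le_mul_of_one_le_left (by linarith) hC11
    have hLr : 1 ≤ L * Real.sqrt r := hL1.trans hlL
    set X : ℝ := L * Real.sqrt r with hX
    have hX0 : 0 < X := by linarith
    have hsr : 0 < Real.sqrt r := Real.sqrt_pos.2 hr
    have hPr : 1 ≤ P.eval r := by
      have : P.coeff 0 ≤ P.eval r := by
        rw [eval_eq_sum_range]
        rw [Finset.sum_range_succ']
        simp only [pow_zero, mul_one]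
        have : 0 ≤ ∑ k ∈ Finset.range P.natDegree, P.coeff (k + 1) * r ^ (k + 1) :=
          Finset.sum_nonneg fun k _ => mul_nonneg (hcf _) (by positivity)
        linarith
      linarith
    have hPr0 : 0 < P.eval r := by linarith
    obtain ⟨hb, hs⟩ := hsize L P hL hcf h0 hdeg hH r hLr hr hrP
    have hs2 : size P r ≤ 2 * S * X := by
      refine hs.trans ?_
      have : S * Real.log L ≤ S * X := mul_le_mul_of_nonneg_left hlL hS.le
      linarith
    have hexp : ∀ x : ℝ, |x| ≤ θ → ∃ E : ℂ, ‖E‖ ≤ (B + 1) ^ 2 * (2 * S) * X * |x| ^ 3 ∧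
          (P.map (algebraMap ℝ ℂ)).eval ((r : ℂ) * exp (x * I))
            = ((P.eval r : ℝ) : ℂ) * exp (x * I * mean P r - var P r * x ^ 2 / 2 + E) := by
      intro x hx
      obtain ⟨E, hE, h1⟩ := expansion B hB.le P r hPr0.ne' hb x (hx.trans hθ4)
      refine ⟨E, hE.trans ?_, h1⟩
      apply mul_le_mul_of_nonneg_right _ (by positivity)
      calc (B + 1) ^ 2 * size P r ≤ (B + 1) ^ 2 * (2 * S * X) :=
            mul_le_mul_of_nonneg_left hs2 (by positivity)
        _ = _ := by ring
    refine ⟨?_, ?_, hexp⟩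
    · -- lower bound for the variance
      have hr4 : r ≤ 4 * Real.sinh Phi ^ 2 := by nlinarith [sq_nonneg (Real.sinh Phi)]
      obtain ⟨φ, hφ1, hφ2, hφ3, hφ4, hφ5, hφ6⟩ := hang r θ hr hr4 hθ0 hθ1 hθ3
      obtain ⟨E, hE, hEq⟩ := hexp θ (by rw [abs_of_pos hθ0])
      rw [abs_of_pos hθ0] at hE
      have hup := (hH φ hφ2 hφ3 (hφ4.trans hθ2)).2
      rw [hφ1, hEq, norm_mul, norm_real, Real.norm_eq_abs, abs_of_pos hPr0, norm_exp] at hup
      have hre : (θ * I * mean P r - var P r * θ ^ 2 / 2 + E : ℂ).re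
          = -(var P r * θ ^ 2 / 2) + E.re := by
        have e1 : (θ * I * mean P r : ℂ).re = 0 := by
          simp
        have e2 : (var P r * θ ^ 2 / 2 : ℂ) = ((var P r * θ ^ 2 / 2 : ℝ) : ℂ) := by push_cast; ring
        rw [add_re, sub_re, e1, e2, ofReal_re]; ring
      rw [hre] at hup
      set x := x0 r with hx
      have hx0 : 0 < x := x0_pos r hr
      have hxP : x ≤ Phi := x0_le r Phi hr hPhi hr4
      have hxl := le_x0 r Phi hr hPhi hr4
      obtain ⟨hlow, _⟩ := hH (x : ℂ) (by simpa using hx0) (by simpa using hxP) (by simpa using hth.le)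
      have hval : (4 : ℂ) * sinh (x : ℂ) ^ 2 = ((r : ℝ) : ℂ) := by
        have h1 : (4 : ℝ) * Real.sinh x ^ 2 = r := four_sinh_x0 r hr.le
        have h2 : (4 : ℂ) * sinh (x : ℂ) ^ 2 = ((4 * Real.sinh x ^ 2 : ℝ) : ℂ) := by push_cast; rfl
        rw [h2, h1]
      rw [hval, eval_map_real, norm_real, Real.norm_eq_abs, abs_of_pos hPr0, ofReal_re] at hlow
      -- logs
      have l1 := Real.log_le_log (by positivity) hlow
      rw [Real.log_mul (by positivity) (Real.exp_pos _).ne', Real.log_mul hc.ne' (by positivity),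
        Real.log_pow, Real.log_exp] at l1
      have l2 := Real.log_le_log (by positivity) hup
      rw [Real.log_mul (by positivity) (by positivity), Real.log_mul hPr0.ne' (Real.exp_pos _).ne',
        Real.log_mul hC.ne' (Real.exp_pos _).ne', Real.log_exp, Real.log_exp, Real.log_pow] at l2
      have hinv : (L)⁻¹ ≤ Real.sqrt r := by
        rw [inv_le_iff_one_le_mul₀ hL0]; linarith
      have hgen : ∀ y : ℝ, Real.sqrt r / (4 * Real.exp Phi) ≤ y →
          -(Real.log L) - Real.log 4 - Phi ≤ Real.log y := by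
        intro y hy
        have h5 : (L)⁻¹ / (4 * Real.exp Phi) ≤ y :=
          le_trans (div_le_div_of_nonneg_right hinv (by positivity)) hy
        have h6 := Real.log_le_log (by positivity) h5
        rw [Real.log_div (by positivity) (by positivity), Real.log_inv,
          Real.log_mul (by norm_num) (Real.exp_pos _).ne', Real.log_exp] at h6
        linarith
      have g1 := mul_le_mul_of_nonneg_left (hgen x hxl) (Nat.cast_nonneg (α := ℝ) a)
      have g2 := mul_le_mul_of_nonneg_left (hgen φ.re hφ6) (Nat.cast_nonneg (α := ℝ) a)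
      have hEre : -E.re ≤ ‖E‖ := by
        have := abs_re_le_norm E
        have := neg_abs_le E.re
        linarith
      have hκL : κ * X * θ ^ 2 ≤ L * x - L * φ.re := by
        have := mul_le_mul_of_nonneg_left hφ5 hL0.le
        calc κ * X * θ ^ 2 = L * (κ * Real.sqrt r * θ ^ 2) := by rw [hX]; ring
          _ ≤ L * (x - φ.re) := this
          _ = _ := by ring
      have hE2 : ‖E‖ ≤ κ / 4 * X * θ ^ 2 := by
        refine hE.trans ?_
        calc (B + 1) ^ 2 * (2 * S) * X * θ ^ 3 = ((B + 1) ^ 2 * (2 * S) * θ) * (X * θ ^ 2) := by ring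
          _ ≤ κ / 4 * (X * θ ^ 2) := mul_le_mul_of_nonneg_right hθ5 (by positivity)
          _ = _ := by ring
      have hGL : G * Real.log L ≤ κ / 4 * X * θ ^ 2 := by
        have h1 : 4 * G / (κ * θ ^ 2) * Real.log L ≤ X := by
          refine le_trans ?_ hCr
          apply mul_le_mul_of_nonneg_right _ (by linarith)
          rw [hC1]; linarith
        have h2 : 4 * G / (κ * θ ^ 2) * Real.log L * (κ * θ ^ 2) ≤ X * (κ * θ ^ 2) :=
          mul_le_mul_of_nonneg_right h1 (by positivity)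
        have h3 : 4 * G / (κ * θ ^ 2) * Real.log L * (κ * θ ^ 2) = 4 * (G * Real.log L) := by
          field_simp
        rw [h3] at h2
        linarith
      have hloss : |Real.log C - Real.log c| + 2 * a * (Real.log L + Real.log 4 + Phi)
          ≤ G * Real.log L := by
        have h1 : |Real.log C - Real.log c| ≤ |Real.log C - Real.log c| * Real.log L :=
          le_mul_of_one_le_right (abs_nonneg _) hL1
        have h2 : 2 * a * (Real.log 4 + Phi) ≤ 2 * a * (Real.log 4 + Phi) * Real.log L :=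
          le_mul_of_one_le_right (by positivity) hL1
        rw [hG]
        linarith
      have hCc : Real.log C - Real.log c ≤ |Real.log C - Real.log c| := le_abs_self _
      have hV : κ / 2 * X * θ ^ 2 ≤ var P r * θ ^ 2 / 2 := by linarith
      have hθ2' : 0 < θ ^ 2 := by positivity
      have : κ * X * θ ^ 2 ≤ var P r * θ ^ 2 := by linarith
      exact le_of_mul_le_mul_right this hθ2'
    · refine (le_abs_self _).trans ((abs_var_le P r B hB.le hb).trans ?_)
      calc (B + 1) * size P r ≤ (B + 1) * (2 * S * X) := mul_le_mul_of_nonneg_left hs2 (by positivity)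
        _ = (B + 1) * 1 * (2 * S * X) := by ring
        _ ≤ (B + 1) * (B + 1) * (2 * S * X) := by gcongr; linarith
        _ = _ := by ring

end Pool.Agent.Helper82.EV
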